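import Pool.Agent.H.MP_82e03f_pr.Asymp

/-!
# The critical exponent of polluted transitive closure on Hamming graphs is one

For every dimension `d ≥ 3` and every `ε > 0`, for all large `n`,
`n^(-1-ε) ≤ p_c(n, d) ≤ n^(-1+ε)`.
-/

namespace Pool.Agent.Results.MP_82e03f_pr.HammingExponent

open Pool.Agent.H.MP_82e03f_pr Filter unitInterval

/-- The critical exponent exists and equals `1` for every dimension `d ≥ 3`. -/
theorem result (d : ℕ) (hd : 3 ≤ d) (ε : ℝ) (hε : 0 < ε) :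
    ∀ᶠ n : ℕ in atTop, (n : ℝ) ^ (-1 - ε) ≤ pc n d ∧ pc n d ≤ (n : ℝ) ^ (-1 + ε) := by
  set δ : ℝ := min ε (1 / 2) with hδ
  have hδ0 : 0 < δ := lt_min hε (by norm_num)
  have hδε : δ ≤ ε := min_le_left _ _
  have hδ1 : δ ≤ 1 / 2 := min_le_right _ _
  filter_upwards [upper_asymp d δ hδ0, lower_asymp d hd δ hδ0 (by linarith),
    eventually_ge_atTop 1] with n hup hlow hn
  have hn1 : (1 : ℝ) ≤ n := by exact_mod_cast hn
  have hn0 : (0 : ℝ) < n := by linarith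
  have hmem : (n : ℝ) ^ (-1 + δ) ∈ {p : ℝ | p ∈ Set.Icc (0 : ℝ) 1 ∧
      ∀ q : I, p ≤ q → 1 / 2 ≤ probSat n d q} := by
    refine ⟨⟨(Real.rpow_pos_of_pos hn0 _).le, ?_⟩, hup⟩
    exact Real.rpow_le_one_of_one_le_of_nonpos hn1 (by linarith)
  constructor
  · have h1 : (n : ℝ) ^ (-1 - ε) ≤ (n : ℝ) ^ (-1 - δ) :=
      Real.rpow_le_rpow_of_exponent_le hn1 (by linarith)
    refine h1.trans ?_
    apply le_csInf ⟨_, hmem⟩
    intro p hp
    by_contra hcon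
    push Not at hcon
    have hq : (n : ℝ) ^ (-1 - δ) ∈ I :=
      ⟨(Real.rpow_pos_of_pos hn0 _).le,
        Real.rpow_le_one_of_one_le_of_nonpos hn1 (by linarith)⟩
    have h2 := hp.2 ⟨(n : ℝ) ^ (-1 - δ), hq⟩ hcon.le
    have h3 := hlow ⟨(n : ℝ) ^ (-1 - δ), hq⟩ rfl
    linarith
  · have h1 : (n : ℝ) ^ (-1 + δ) ≤ (n : ℝ) ^ (-1 + ε) :=
      Real.rpow_le_rpow_of_exponent_le hn1 (by linarith)
    refine le_trans ?_ h1
    exact csInf_le ⟨0, fun p hp => hp.1.1⟩ hmem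

end Pool.Agent.Results.MP_82e03f_pr.HammingExponent
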